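import Pool.Agent.Z15.Q.Stm

/-!
Positive involutions of products of algebras of real matrices (task Q_INV of helper15).
-/

set_option autoImplicit false

namespace Pool.Agent.T3h91.Q15

open Module Matrix Pool.Agent.Z15.Q
open scoped MatrixOrder

section

variable {m : ℕ} {n : Fin m → ℕ} {T : Type} [AddCommGroup T] [Module ℂ T]

/-- conjugation by a unit -/
def conjE {k : ℕ} (G : (Matrix (Fin k) (Fin k) ℝ)ˣ) :
    Matrix (Fin k) (Fin k) ℝ ≃ₐ[ℝ] Matrix (Fin k) (Fin k) ℝ where
  toFun y := (↑G⁻¹ : Matrix (Fin k) (Fin k) ℝ) * y * (G : Matrix (Fin k) (Fin k) ℝ)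
  invFun y := (G : Matrix (Fin k) (Fin k) ℝ) * y * (↑G⁻¹ : Matrix (Fin k) (Fin k) ℝ)
  left_inv y := by simp [mul_assoc]
  right_inv y := by simp [mul_assoc]
  map_mul' x y := by simp [mul_assoc]
  map_add' x y := by simp [mul_add, add_mul]
  commutes' r := by
    rw [Algebra.algebraMap_eq_smul_one]
    simp

theorem conjE_apply {k : ℕ} (G : (Matrix (Fin k) (Fin k) ℝ)ˣ) (y : Matrix (Fin k) (Fin k) ℝ) :
    conjE G y = (↑G⁻¹ : Matrix (Fin k) (Fin k) ℝ) * y * (G : Matrix (Fin k) (Fin k) ℝ) := rfl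

theorem selfadj (Ψ : T → T → ℂ) (hlin : ∀ u', IsLinearMap ℂ fun u => Ψ u u')
    (hherm : ∀ u u', Ψ u' u = starRingEnd ℂ (Ψ u u')) (hpos : ∀ u, u ≠ 0 → 0 < (Ψ u u).re)
    (θ : ((j : Fin m) → Matrix (Fin (n j)) (Fin (n j)) ℝ) →ₐ[ℝ] Module.End ℂ T)
    (P c : (j : Fin m) → Matrix (Fin (n j)) (Fin (n j)) ℝ) (hP : P * P = P)
    (hc : ∀ a, P * a = a * P)
    (hPc : ∀ u u', Ψ (θ P u) u' = Ψ u (θ c u')) (u u' : T) :
    Ψ (θ P u) u' = Ψ u (θ P u') := by
  have hsubl : ∀ a b w, Ψ (a - b) w = Ψ a w - Ψ b w := fun a b w => (hlin w).map_sub a b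
  have hzl : ∀ w, Ψ 0 w = 0 := fun w => (hlin w).map_zero
  have hzr : ∀ w, Ψ w 0 = 0 := fun w => by rw [hherm, hzl, map_zero]
  have hsubr : ∀ w a b, Ψ w (a - b) = Ψ w a - Ψ w b := fun w a b => by
    rw [hherm, hsubl, map_sub, ← hherm, ← hherm]
  have hcP : ∀ y x, Ψ y (θ P x) = Ψ (θ c y) x := fun y x => by
    rw [hherm (θ P x) y, hPc, ← hherm]
  have hmul : ∀ a b w, θ a (θ b w) = θ (a * b) w := fun a b w => by
    rw [map_mul]; rfl
  have key : ∀ w, θ P w = θ c (θ P w) := by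
    intro w
    by_contra hne
    have hne' : θ P w - θ c (θ P w) ≠ 0 := sub_ne_zero.mpr hne
    have h0 : Ψ (θ P w - θ c (θ P w)) (θ P w - θ c (θ P w)) = 0 := by
      set z := θ P w - θ c (θ P w) with hz
      have h1 : Ψ z z = Ψ (θ P w) z - Ψ (θ P w) (θ P z) := by
        rw [hcP (θ P w) z, ← hsubl]
      have h2 : θ c (z - θ P z) = 0 := by
        have e3 : z - θ P z = 0 := by
          rw [hz]
          simp only [map_sub, hmul]
          have e2 : P * (c * P) = c * P := by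
            rw [hc (c * P), mul_assoc, hP]
          rw [e2, hP]
          abel
        rw [e3, map_zero]
      rw [h1, ← hsubr, hPc, h2, hzr]
    have := hpos _ hne'
    rw [h0] at this
    simp at this
  have h3 : ∀ v v', Ψ (θ P v) v' = Ψ (θ P v) (θ P v') := fun v v' => by
    rw [hcP (θ P v) v', ← key v]
  rw [h3 u u', hherm (θ P u') (θ P u), ← h3 u' u, ← hherm]

theorem single_mul_one (j : Fin m) (a : (j : Fin m) → Matrix (Fin (n j)) (Fin (n j)) ℝ) :
    a * Pi.single j 1 = Pi.single j (a j) := by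
  classical
  funext k
  by_cases h : k = j
  · subst h; simp
  · simp [Pi.single_eq_of_ne h]

theorem one_mul_single (j : Fin m) (a : (j : Fin m) → Matrix (Fin (n j)) (Fin (n j)) ℝ) :
    Pi.single j 1 * a = Pi.single j (a j) := by
  classical
  funext k
  by_cases h : k = j
  · subst h; simp
  · simp [Pi.single_eq_of_ne h]

theorem block_adj (Ψ : T → T → ℂ) (hlin : ∀ u', IsLinearMap ℂ fun u => Ψ u u')
    (hherm : ∀ u u', Ψ u' u = starRingEnd ℂ (Ψ u u')) (hpos : ∀ u, u ≠ 0 → 0 < (Ψ u u).re)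
    (θ : ((j : Fin m) → Matrix (Fin (n j)) (Fin (n j)) ℝ) →ₐ[ℝ] Module.End ℂ T)
    (hadj : ∀ a, ∃ a', ∀ u u', Ψ (θ a u) u' = Ψ u (θ a' u'))
    (j : Fin m) (x : Matrix (Fin (n j)) (Fin (n j)) ℝ) :
    ∃ x' : Matrix (Fin (n j)) (Fin (n j)) ℝ, ∀ u u',
      Ψ (θ (Pi.single j x) u) u' = Ψ u (θ (Pi.single j x') u') := by
  classical
  obtain ⟨c, hc⟩ := hadj (Pi.single j 1)
  have hs := selfadj Ψ hlin hherm hpos θ (Pi.single j 1) c
    (by rw [single_mul_one]; simp) (fun a => by rw [single_mul_one, one_mul_single]) hc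
  obtain ⟨a', ha'⟩ := hadj (Pi.single j x)
  refine ⟨a' j, fun u u' => ?_⟩
  have hmul : ∀ a b w, θ a (θ b w) = θ (a * b) w := fun a b w => by
    rw [map_mul]; rfl
  have h1 : θ (Pi.single j x) u = θ (Pi.single j 1) (θ (Pi.single j x) u) := by
    rw [hmul, one_mul_single]; simp
  rw [h1, hs, ha', hmul, single_mul_one]

theorem exists_G (Ψ : T → T → ℂ) (hlin : ∀ u', IsLinearMap ℂ fun u => Ψ u u')
    (hherm : ∀ u u', Ψ u' u = starRingEnd ℂ (Ψ u u')) (hpos : ∀ u, u ≠ 0 → 0 < (Ψ u u).re)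
    (θ : ((j : Fin m) → Matrix (Fin (n j)) (Fin (n j)) ℝ) →ₐ[ℝ] Module.End ℂ T)
    (hadj : ∀ a, ∃ a', ∀ u u', Ψ (θ a u) u' = Ψ u (θ a' u')) (j : Fin m) :
    ∃ G : (Matrix (Fin (n j)) (Fin (n j)) ℝ)ˣ, ∀ y u u',
      Ψ (θ (Pi.single j (conjE G y)) u) u' = Ψ u (θ (Pi.single j (conjE G yᵀ)) u') := by
  classical
  have hzl : ∀ w, Ψ 0 w = 0 := fun w => (hlin w).map_zero
  have hzr : ∀ w, Ψ w 0 = 0 := fun w => by rw [hherm, hzl, map_zero]
  have hmul : ∀ a b w, θ a (θ b w) = θ (a * b) w := fun a b w => by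
    rw [map_mul]; rfl
  by_cases h1 : θ (Pi.single j 1) = 0
  · have hz : ∀ x w, θ (Pi.single j x) w = 0 := by
      intro x w
      have : (Pi.single j x : (j : Fin m) → Matrix (Fin (n j)) (Fin (n j)) ℝ) =
          Pi.single j 1 * Pi.single j x := by
        rw [one_mul_single]; simp
      rw [this, map_mul, h1, zero_mul]; rfl
    refine ⟨1, fun y u u' => ?_⟩
    rw [hz, hz, hzl, hzr]
  · -- the block is nonempty
    have hne : Nonempty (Fin (n j)) := by
      by_contra hemp
      rw [not_nonempty_iff] at hemp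
      apply h1
      have : (1 : Matrix (Fin (n j)) (Fin (n j)) ℝ) = 0 := Subsingleton.elim _ _
      rw [this, Pi.single_zero, map_zero]
    obtain ⟨o⟩ := hne
    have hE : θ (Pi.single j (Matrix.single o o 1)) ≠ 0 := by
      intro h0
      apply h1
      have h2 : ∀ a : Fin (n j), θ (Pi.single j (Matrix.single a a 1)) = 0 := by
        intro a
        have : (Pi.single j (Matrix.single a a 1) : (j : Fin m) → Matrix (Fin (n j)) (Fin (n j)) ℝ)
            = Pi.single j (Matrix.single a o 1) * (Pi.single j (Matrix.single o o 1) *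
              Pi.single j (Matrix.single o a 1)) := by
          rw [← Pi.single_mul, ← Pi.single_mul]
          simp
        rw [this, map_mul, map_mul, h0, zero_mul, mul_zero]
      have h3 : (Pi.single j 1 : (j : Fin m) → Matrix (Fin (n j)) (Fin (n j)) ℝ) =
          ∑ a : Fin (n j), Pi.single j (Matrix.single a a 1) := by
        have h4 : (1 : Matrix (Fin (n j)) (Fin (n j)) ℝ) =
            ∑ a : Fin (n j), Matrix.single a a 1 := by
          rw [Matrix.sum_single_eq_diagonal (fun _ => (1 : ℝ)), Matrix.diagonal_one]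
        rw [h4]
        exact map_sum (AddMonoidHom.single
          (fun j : Fin m => Matrix (Fin (n j)) (Fin (n j)) ℝ) j) _ _
      rw [h3, map_sum]
      exact Finset.sum_eq_zero fun a _ => h2 a
    obtain ⟨v0, hv0⟩ : ∃ v0, θ (Pi.single j (Matrix.single o o 1)) v0 ≠ 0 := by
      by_contra hcon
      exact hE (LinearMap.ext fun w => not_not.mp fun hw => hcon ⟨w, hw⟩)
    set v := θ (Pi.single j (Matrix.single o o 1)) v0 with hv
    have hvv : θ (Pi.single j (Matrix.single o o 1)) v = v := by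
      rw [hv, hmul, ← Pi.single_mul]
      simp
    let E : (Fin (n j) → ℝ) → Matrix (Fin (n j)) (Fin (n j)) ℝ := fun w =>
      Matrix.of fun a b => if b = o then w a else 0
    have hEmul : ∀ (x : Matrix (Fin (n j)) (Fin (n j)) ℝ) w, x * E w = E (x *ᵥ w) := by
      intro x w
      ext a b
      by_cases hb : b = o
      · simp [E, Matrix.mul_apply, Matrix.mulVec, dotProduct, hb]
      · simp [E, Matrix.mul_apply, hb]
    have hEadd : ∀ w w', E (w + w') = E w + E w' := by
      intro w w'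
      ext a b
      by_cases hb : b = o
      · simp [E, hb]
      · simp [E, hb]
    have hEsmul : ∀ (r : ℝ) w, E (r • w) = r • E w := by
      intro r w
      ext a b
      by_cases hb : b = o
      · simp [E, hb]
      · simp [E, hb]
    let F : (Fin (n j) → ℝ) → T := fun w => θ (Pi.single j (E w)) v
    have hFadd : ∀ w w', F (w + w') = F w + F w' := by
      intro w w'
      simp only [F]
      rw [hEadd, Pi.single_add, map_add]; rfl
    have hFsmul : ∀ (r : ℝ) w, F (r • w) = (r : ℂ) • F w := by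
      intro r w
      simp only [F]
      rw [hEsmul, Pi.single_smul, map_smul]; rfl
    have hFx : ∀ x w, θ (Pi.single j x) (F w) = F (x *ᵥ w) := by
      intro x w
      simp only [F]
      rw [hmul, ← Pi.single_mul, hEmul]
    have hF0 : ∀ w, w ≠ 0 → F w ≠ 0 := by
      intro w hw hFw
      obtain ⟨a, ha⟩ := Function.ne_iff.mp hw
      have h5 : θ (Pi.single j ((w a)⁻¹ • Matrix.single o a 1)) (F w) = v := by
        rw [hFx]
        simp only [F]
        have h6 : E (((w a)⁻¹ • Matrix.single o a (1 : ℝ)) *ᵥ w) = Matrix.single o o 1 := by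
          have h6a : ((w a)⁻¹ • Matrix.single o a (1 : ℝ)) *ᵥ w = Pi.single o 1 := by
            rw [Matrix.smul_mulVec, Matrix.single_mulVec_eq, one_mul, smul_smul,
              inv_mul_cancel₀ ha, one_smul]
          rw [h6a]
          ext b b'
          by_cases hb : b' = o
          · by_cases hb2 : b = o
            · simp [E, hb, hb2]
            · simp [E, hb, hb2, Ne.symm hb2]
          · simp [E, hb, Matrix.single, Ne.symm hb]
        rw [h6, hvv]
      rw [hFw, map_zero] at h5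
      exact hv0 (hv ▸ h5.symm)
    have haddl : ∀ a b w, Ψ (a + b) w = Ψ a w + Ψ b w := fun a b w => (hlin w).map_add a b
    have hsmull : ∀ (c : ℂ) a w, Ψ (c • a) w = c * Ψ a w := fun c a w => (hlin w).map_smul c a
    have haddr : ∀ w a b, Ψ w (a + b) = Ψ w a + Ψ w b := fun w a b => by
      rw [hherm, haddl, map_add, ← hherm, ← hherm]
    have hsmulr : ∀ (r : ℝ) w a, Ψ w ((r : ℂ) • a) = r * Ψ w a := fun r w a => by
      rw [hherm, hsmull, map_mul, ← hherm, Complex.conj_ofReal]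
    let β : (Fin (n j) → ℝ) →ₗ[ℝ] (Fin (n j) → ℝ) →ₗ[ℝ] ℝ :=
      LinearMap.mk₂ ℝ (fun w w' => (Ψ (F w) (F w')).re)
        (fun a b w => by rw [hFadd, haddl, Complex.add_re])
        (fun r a w => by rw [hFsmul, hsmull, Complex.re_ofReal_mul, smul_eq_mul])
        (fun w a b => by rw [hFadd, haddr, Complex.add_re])
        (fun r w a => by rw [hFsmul, hsmulr, Complex.re_ofReal_mul, smul_eq_mul])
    have hβ : ∀ w w', β w w' = (Ψ (F w) (F w')).re := fun w w' => rfl
    set S : Matrix (Fin (n j)) (Fin (n j)) ℝ := LinearMap.toMatrix₂' ℝ β with hS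
    have hSβ : ∀ w w', w ⬝ᵥ (S *ᵥ w') = β w w' := by
      intro w w'
      rw [← Matrix.toLinearMap₂'_apply', hS, Matrix.toLinearMap₂'_toMatrix']
    have hSpos : S.PosDef := by
      refine Matrix.PosDef.of_dotProduct_mulVec_pos ?_ ?_
      · ext a b
        rw [Matrix.conjTranspose_apply, hS, LinearMap.toMatrix₂'_apply, LinearMap.toMatrix₂'_apply,
          hβ, hβ, hherm (F (Pi.single a 1))]
        simp
      · intro x hx
        have : star x = x := by ext; simp
        rw [this, hSβ, hβ]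
        exact hpos _ (hF0 x hx)
    have hrel : ∀ x x' : Matrix (Fin (n j)) (Fin (n j)) ℝ,
        (∀ u u', Ψ (θ (Pi.single j x) u) u' = Ψ u (θ (Pi.single j x') u')) → xᵀ * S = S * x' := by
      intro x x' hx
      have hent : ∀ (A : Matrix (Fin (n j)) (Fin (n j)) ℝ) a b,
          A a b = Pi.single a 1 ⬝ᵥ (A *ᵥ Pi.single b 1) := by
        intro A a b
        simp
      ext a b
      calc (xᵀ * S) a b = Pi.single a 1 ⬝ᵥ ((xᵀ * S) *ᵥ Pi.single b 1) := hent (xᵀ * S) a b
        _ = (x *ᵥ Pi.single a 1) ⬝ᵥ (S *ᵥ Pi.single b 1) := by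
          rw [← Matrix.mulVec_mulVec, Matrix.dotProduct_mulVec, Matrix.vecMul_transpose]
        _ = Pi.single a 1 ⬝ᵥ (S *ᵥ (x' *ᵥ Pi.single b 1)) := by
          rw [hSβ, hβ, ← hFx, hx, hFx, ← hβ, ← hSβ]
        _ = (S * x') a b := by rw [Matrix.mulVec_mulVec, ← hent (S * x')]
    obtain ⟨G0, hG0, hSG⟩ :=
      CStarAlgebra.isStrictlyPositive_iff_eq_star_mul_self.mp hSpos.isStrictlyPositive
    obtain ⟨G, rfl⟩ := hG0
    refine ⟨G, fun y u u' => ?_⟩
    obtain ⟨x', hx'⟩ := block_adj Ψ hlin hherm hpos θ hadj j (conjE G y)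
    have h7 := hrel _ _ hx'
    have h8 : x' = conjE G yᵀ := by
      rw [hSG, Matrix.star_eq_conjTranspose, Matrix.conjTranspose_eq_transpose_of_trivial] at h7
      have h9 : (conjE G y)ᵀ * ((G : Matrix (Fin (n j)) (Fin (n j)) ℝ)ᵀ * G) =
          (G : Matrix (Fin (n j)) (Fin (n j)) ℝ)ᵀ * (yᵀ * G) := by
        have h10 : (↑G⁻¹ : Matrix (Fin (n j)) (Fin (n j)) ℝ)ᵀ *
            ((G : Matrix (Fin (n j)) (Fin (n j)) ℝ)ᵀ * G) = G := by
          rw [← mul_assoc, ← Matrix.transpose_mul, Units.mul_inv, Matrix.transpose_one, one_mul]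
        rw [conjE_apply, Matrix.transpose_mul, Matrix.transpose_mul, mul_assoc, mul_assoc, h10]
      rw [h9, mul_assoc] at h7
      have h11 : (↑G⁻¹ : Matrix (Fin (n j)) (Fin (n j)) ℝ)ᵀ *
          (G : Matrix (Fin (n j)) (Fin (n j)) ℝ)ᵀ = 1 := by
        rw [← Matrix.transpose_mul, Units.mul_inv, Matrix.transpose_one]
      have h12 : yᵀ * (G : Matrix (Fin (n j)) (Fin (n j)) ℝ) = G * x' := by
        have := congrArg (fun M => (↑G⁻¹ : Matrix (Fin (n j)) (Fin (n j)) ℝ)ᵀ * M) h7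
        simpa only [← mul_assoc, h11, one_mul] using this
      rw [conjE_apply, mul_assoc, h12, ← mul_assoc, Units.inv_mul, one_mul]
    rw [hx', h8]

theorem t_Q_INV : Q_INV := by
  classical
  intro m n T _ _ _ Ψ hlin hherm hpos θ hadj
  choose G hG using fun j => exists_G Ψ hlin hherm hpos θ hadj j
  have haddl : ∀ a b w, Ψ (a + b) w = Ψ a w + Ψ b w := fun a b w => (hlin w).map_add a b
  have hzl : ∀ w, Ψ 0 w = 0 := fun w => (hlin w).map_zero
  have hzr : ∀ w, Ψ w 0 = 0 := fun w => by rw [hherm, hzl, map_zero]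
  have haddr : ∀ w a b, Ψ w (a + b) = Ψ w a + Ψ w b := fun w a b => by
    rw [hherm, haddl, map_add, ← hherm, ← hherm]
  have hsum : ∀ a : (j : Fin m) → Matrix (Fin (n j)) (Fin (n j)) ℝ,
      AlgEquiv.piCongrRight (fun j => conjE (G j)) a =
        ∑ j, Pi.single j (conjE (G j) (a j)) := by
    intro a
    rw [Finset.univ_sum_single]
    rfl
  refine ⟨AlgEquiv.piCongrRight fun j => conjE (G j), fun a u u' => ?_⟩
  rw [hsum, hsum, map_sum, map_sum, LinearMap.sum_apply, LinearMap.sum_apply]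
  have h1 : ∀ (s : Finset (Fin m)) (g h : Fin m → T) , (∀ j, Ψ (g j) u' = Ψ u (h j)) →
      Ψ (∑ j ∈ s, g j) u' = Ψ u (∑ j ∈ s, h j) := by
    intro s g h hgh
    induction s using Finset.induction_on with
    | empty => simp [hzl, hzr]
    | insert j s hj ih => rw [Finset.sum_insert hj, Finset.sum_insert hj, haddl, haddr, hgh, ih]
  exact h1 _ _ _ fun j => hG j _ _ _

end

end Pool.Agent.T3h91.Q15
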